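import Pool.Agent.Lib.MP_e0f57b_al.BrH

/-!
`G ≅ Sp(4, ℝ)`, `G' = K ≅ U(2)`, `𝔟` the `θ`-stable Borel subalgebra with positive roots
`e₁-e₂, 2e₁, e₁+e₂, -2e₂`: `𝔟` is of virtually symmetric type in the sense of the problem file (the
parabolic subalgebra `𝔨 + 𝔭₊` of symmetric type has Levi subgroup `K ⊇ T = N_G(𝔟)`), and for every
`λ` in the good range the multiplicities of the `K`-types in `A_𝔟(λ)` are unbounded.

`𝔟` is not contained in `𝔨 + 𝔭₊`; the problem file does not ask for that.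
-/

open Matrix

namespace Pool.Agent.Results.MP_e0f57b_al.LargeDiscreteSeries

open Pool.Agent.MP_e0f57b_al.St

theorem result.{u} :
    (IsRealSymplectic ∧ CompactSpace K ∧ SymmetricPair expK) ∧
    (IsThetaStableParabolic bor ∧ Nrm bor = T ∧ VirtuallySymmetricType bor) ∧
    (∃ lam, GoodRange lam) ∧
    ∀ lam : Fin 2 → ℤ, GoodRange lam →
      (∃ (A : Type) (_ : AddCommGroup A) (_ : Module ℂ A) (_ : LieRingModule gC A)
        (_ : LieModule ℂ gC A), IsA lam A) ∧
      ∀ (A : Type) [AddCommGroup A] [Module ℂ A] [LieRingModule gC A] [LieModule ℂ gC A],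
        IsA lam A → UnbddKTypes A ∧
          ∀ (H : Type u) [NormedAddCommGroup H] [InnerProductSpace ℂ H] [CompleteSpace H]
            (π : G →* (H ≃ₗᵢ[ℂ] H)) (Φ : A →ₗ[ℂ] H), IsCompletion A π Φ → UnbddRestriction π :=
  ⟨⟨isRealSymplectic, compactK, symmetricPair_expK⟩, ⟨thetaStable_bor, Nrm_bor', vst_bor⟩,
    ⟨0, goodRange_zero⟩, fun lam hg => ⟨exists_A lam, fun _ _ _ _ _ hA =>
      ⟨unbddKTypes_of_A hg hA, fun _ _ _ _ π Φ hc => unbddRestriction_of_A hg hA π Φ hc⟩⟩⟩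

end Pool.Agent.Results.MP_e0f57b_al.LargeDiscreteSeries
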